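import Pool.Agent.H20.GI.Qd

/-!
The coefficients of `(1 - q^n t^2) U V` and the palindromic lemma.
-/

set_option autoImplicit false
open Finset

namespace Pool.H20.GI

open PowerSeries

/-- the coefficient of the interval formula. -/
noncomputable def icoef (q : ℝ) (k a b : ℕ) : ℝ :=
  (-1) ^ a * q ^ (k * a + b) * (1 + q ^ (a + b) / q ^ (k + 1)) * pr q (k + 1) a * pr q (k + 1) b
    / (1 + 1 / q ^ (k + 1))

theorem pr_shift {q : ℝ} (hq : 0 < q) (k : ℕ) : ∀ a : ℕ,
    pr q k a * (1 + 1 / q ^ (k + 1)) = pr q (k + 1) a * (1 + q ^ a / q ^ (k + 1)) := by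
  intro a
  induction a with
  | zero => simp [pr_zero]
  | succ a ih =>
    rw [pr_succ, pr_succ]
    have h2 : q ^ k ≠ 0 := (pow_pos hq k).ne'
    have hq0 : q ≠ 0 := hq.ne'
    have e : 1 + q ^ (a + 1) / q ^ (k + 1) = 1 + q ^ a / q ^ k := by
      rw [pow_succ, pow_succ]
      field_simp
    rw [e]
    calc pr q k a * ((1 + q ^ a / q ^ k) / (1 - q ^ (a + 1))) * (1 + 1 / q ^ (k + 1))
        = (pr q k a * (1 + 1 / q ^ (k + 1))) * ((1 + q ^ a / q ^ k) / (1 - q ^ (a + 1))) := by ring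
      _ = _ := by rw [ih]; ring

theorem x_pos {q : ℝ} (hq : 0 < q) (k : ℕ) : 0 < 1 + 1 / q ^ (k + 1) := by positivity

theorem pr_eq {q : ℝ} (hq : 0 < q) (k a : ℕ) :
    pr q k a = pr q (k + 1) a * (1 + q ^ a / q ^ (k + 1)) / (1 + 1 / q ^ (k + 1)) := by
  rw [eq_div_iff (x_pos hq k).ne', pr_shift hq]

theorem icoef_zero_left {q : ℝ} (hq : 0 < q) (k b : ℕ) :
    icoef q k 0 b = Uc q k 0 * Vc q k b := by
  unfold icoef Uc Vc
  rw [pr_eq hq k b, pr_zero, pr_zero]
  simp only [mul_zero, zero_add, pow_zero, one_mul, mul_one]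
  ring

theorem icoef_zero_right {q : ℝ} (hq : 0 < q) (k a : ℕ) :
    icoef q k a 0 = Uc q k a * Vc q k 0 := by
  unfold icoef Uc Vc
  rw [pr_eq hq k a, pr_zero, pr_zero]
  simp only [add_zero, pow_zero, mul_one]
  rw [neg_pow (q ^ k) a, ← pow_mul]
  ring

theorem icoef_succ {q : ℝ} (hq : 0 < q) (hq1 : q ≠ 1) (k a b : ℕ) :
    icoef q k (a + 1) (b + 1) = Uc q k (a + 1) * Vc q k (b + 1) - Uc q k a * Vc q k b := by
  unfold icoef Uc Vc
  have hx := (x_pos hq k).ne'
  have ha := one_sub_pow_ne hq hq1 a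
  have hb := one_sub_pow_ne hq hq1 b
  have hK : q ^ (k + 1) ≠ 0 := (pow_pos hq (k + 1)).ne'
  have h1 : pr q k (a + 1) = pr q (k + 1) (a + 1) * (1 + q ^ (a + 1) / q ^ (k + 1))
      / (1 + 1 / q ^ (k + 1)) := pr_eq hq k (a + 1)
  have h2 : pr q k (b + 1) = pr q (k + 1) (b + 1) * (1 + q ^ (b + 1) / q ^ (k + 1))
      / (1 + 1 / q ^ (k + 1)) := pr_eq hq k (b + 1)
  have h3 : pr q k a = pr q (k + 1) (a + 1) * (1 - q ^ (a + 1)) / (1 + 1 / q ^ (k + 1)) := by
    rw [pr_eq hq k a, pr_succ q (k + 1) a]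
    field_simp
  have h4 : pr q k b = pr q (k + 1) (b + 1) * (1 - q ^ (b + 1)) / (1 + 1 / q ^ (k + 1)) := by
    rw [pr_eq hq k b, pr_succ q (k + 1) b]
    field_simp
  rw [h1, h2, h3, h4]
  generalize pr q (k + 1) (a + 1) = P
  generalize pr q (k + 1) (b + 1) = R
  have e1 : q ^ (k * (a + 1) + (b + 1)) = (q ^ k) ^ a * q ^ b * q ^ (k + 1) := by
    rw [← pow_mul, ← pow_add, ← pow_add]
    congr 1
    ring
  have e2 : q ^ (a + 1 + (b + 1)) = q ^ (a + 1) * q ^ (b + 1) := pow_add _ _ _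
  have e3 : (-q ^ k) ^ (a + 1) = (-1) ^ (a + 1) * ((q ^ k) ^ a * q ^ k) := by
    rw [neg_pow, ← pow_succ]
  have e4 : (-q ^ k) ^ a = (-1) ^ a * (q ^ k) ^ a := by rw [neg_pow]
  have e5 : q ^ (k + 1) = q ^ k * q := pow_succ _ _
  rw [e1, e2, e3, e4]
  rw [div_eq_iff hx]
  have hx2 : (1 + 1 / q ^ (k + 1)) = (q ^ (k + 1) + 1) / q ^ (k + 1) := by
    field_simp
  have hx3 : (q ^ (k + 1) + 1) ≠ 0 := by positivity
  rw [hx2]
  field_simp
  rw [e5]
  ring

/-- the coefficients of `(1 - q^n t^2) U V`. -/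
theorem coeff_W {q : ℝ} (hq : 0 < q) (hq1 : q ≠ 1) (k n s : ℕ) :
    coeff s ((1 - C (q ^ n) * X ^ 2) * (Us q k * Vs q k n))
      = ∑ p ∈ antidiagonal s, icoef q k p.1 p.2 * (q ^ n) ^ p.2 := by
  have hUV : ∀ m, coeff m (Us q k * Vs q k n)
      = ∑ p ∈ antidiagonal m, Uc q k p.1 * Vc q k p.2 * (q ^ n) ^ p.2 := by
    intro m
    rw [coeff_mul]
    apply Finset.sum_congr rfl
    intro p _
    simp only [Us, Vs, coeff_mk]
    ring
  rw [sub_mul, one_mul, map_sub, mul_assoc, coeff_C_mul, coeff_X_pow_mul', hUV]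
  match s with
  | 0 =>
    have h0 : antidiagonal 0 = {((0 : ℕ), (0 : ℕ))} := rfl
    rw [h0, Finset.sum_singleton, Finset.sum_singleton]
    rw [icoef_zero_left hq]
    simp
  | 1 =>
    rw [Finset.Nat.sum_antidiagonal_succ, Finset.Nat.sum_antidiagonal_succ]
    have h0 : antidiagonal 0 = {((0 : ℕ), (0 : ℕ))} := rfl
    rw [h0, Finset.sum_singleton, Finset.sum_singleton]
    rw [icoef_zero_left hq, icoef_zero_right hq]
    simp
  | s + 2 =>
    rw [if_pos (by omega), Nat.add_sub_cancel, hUV]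
    rw [Finset.Nat.sum_antidiagonal_succ, Finset.Nat.sum_antidiagonal_succ',
      Finset.Nat.sum_antidiagonal_succ, Finset.Nat.sum_antidiagonal_succ']
    rw [icoef_zero_left hq, icoef_zero_right hq, Finset.mul_sum]
    have h1 : ∀ p ∈ antidiagonal s, icoef q k (p.1 + 1) (p.2 + 1) * (q ^ n) ^ (p.2 + 1)
        = Uc q k (p.1 + 1) * Vc q k (p.2 + 1) * (q ^ n) ^ (p.2 + 1)
          - q ^ n * (Uc q k p.1 * Vc q k p.2 * (q ^ n) ^ p.2) := by
      intro p _
      rw [icoef_succ hq hq1]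
      ring
    rw [Finset.sum_congr rfl h1, Finset.sum_sub_distrib]
    ring

/-- palindromic up to the scaling `Q`, centre `s`. -/
def Pal (Q : ℝ) (s : ℕ) (N : PowerSeries ℝ) : Prop :=
  (∀ m, 2 * s < m → coeff m N = 0) ∧ ∀ a b, a + b = 2 * s → Q ^ a * coeff b N = Q ^ s * coeff a N

theorem Pal.one (Q : ℝ) : Pal Q 0 1 := by
  refine ⟨fun m hm => ?_, fun a b hab => ?_⟩
  · rw [coeff_one, if_neg (by omega)]
  · have h1 : a = 0 := by omega
    have h2 : b = 0 := by omega
    subst h1 h2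
    simp

theorem coeff_mul_quad (N : PowerSeries ℝ) (p Q : ℝ) (m : ℕ) :
    coeff m (N * (1 + C p * X + C Q * X ^ 2)) = coeff m N + (if 1 ≤ m then p * coeff (m - 1) N else 0)
      + (if 2 ≤ m then Q * coeff (m - 2) N else 0) := by
  have e : N * (1 + C p * X + C Q * X ^ 2) = N + C p * (X ^ 1 * N) + C Q * (X ^ 2 * N) := by ring
  rw [e, map_add, map_add, coeff_C_mul, coeff_C_mul, coeff_X_pow_mul', coeff_X_pow_mul']
  split_ifs <;> simp

theorem Pal.step {Q p : ℝ} {s : ℕ} {N : PowerSeries ℝ} (h : Pal Q s N) :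
    Pal Q (s + 1) (N * (1 + C p * X + C Q * X ^ 2)) := by
  obtain ⟨h0, h1⟩ := h
  refine ⟨fun m hm => ?_, fun a b hab => ?_⟩
  · rw [coeff_mul_quad, h0 m (by omega), h0 (m - 1) (by omega), h0 (m - 2) (by omega)]
    simp
  · rw [coeff_mul_quad, coeff_mul_quad]
    -- pair (a-2, b)
    have t1 : Q ^ a * coeff b N = Q ^ (s + 1) * (if 2 ≤ a then Q * coeff (a - 2) N else 0) := by
      by_cases ha : 2 ≤ a
      · rw [if_pos ha]
        have h2 := h1 (a - 2) b (by omega)
        have e : Q ^ a = Q ^ 2 * Q ^ (a - 2) := by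
          rw [← pow_add]; congr 1; omega
        rw [e, mul_assoc, h2]
        ring
      · rw [if_neg ha, h0 b (by omega)]
        ring
    have t2 : Q ^ a * (if 1 ≤ b then p * coeff (b - 1) N else 0)
        = Q ^ (s + 1) * (if 1 ≤ a then p * coeff (a - 1) N else 0) := by
      by_cases ha : 1 ≤ a
      · by_cases hb : 1 ≤ b
        · rw [if_pos ha, if_pos hb]
          have h2 := h1 (a - 1) (b - 1) (by omega)
          have e : Q ^ a = Q * Q ^ (a - 1) := by
            rw [← pow_succ']; congr 1; omega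
          rw [e]
          linear_combination Q * p * h2
        · rw [if_pos ha, if_neg hb, h0 (a - 1) (by omega)]
          ring
      · by_cases hb : 1 ≤ b
        · rw [if_neg ha, if_pos hb, h0 (b - 1) (by omega)]
          ring
        · omega
    have t3 : Q ^ a * (if 2 ≤ b then Q * coeff (b - 2) N else 0) = Q ^ (s + 1) * coeff a N := by
      by_cases hb : 2 ≤ b
      · rw [if_pos hb]
        have h2 := h1 a (b - 2) (by omega)
        linear_combination Q * h2
      · rw [if_neg hb, h0 a (by omega)]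
        ring
    linear_combination t1 + t2 + t3

theorem Pal.mid {Q : ℝ} (hQ : Q ≠ 0) {s : ℕ} {N : PowerSeries ℝ} (h : Pal Q s N) :
    coeff (s + 1) ((1 - C Q * X ^ 2) * N) = 0 := by
  obtain ⟨h0, h1⟩ := h
  rw [sub_mul, one_mul, map_sub, mul_assoc, coeff_C_mul, coeff_X_pow_mul']
  by_cases hs : 1 ≤ s
  · rw [if_pos (by omega)]
    have h2 := h1 (s - 1) (s + 1) (by omega)
    have e : Q ^ s = Q * Q ^ (s - 1) := by
      rw [← pow_succ']; congr 1; omega
    have e2 : s + 1 - 2 = s - 1 := by omega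
    rw [e, mul_assoc] at h2
    have h3 : Q ^ (s - 1) * coeff (s + 1) N = Q ^ (s - 1) * (Q * coeff (s - 1) N) := by
      rw [h2]; ring
    have h4 := mul_left_cancel₀ (pow_ne_zero _ hQ) h3
    rw [e2, h4]
    ring
  · rw [if_neg (by omega), h0 (s + 1) (by omega)]
    ring

theorem Pal.prod {q : ℝ} {n : ℕ} : ∀ (k j : ℕ), j ≤ k → k ≤ n →
    Pal (q ^ n) (k - j) (∏ i ∈ Ico j k, ((1 + C (q ^ i) * X) * (1 + C (q ^ (n - i)) * X))) := by
  intro k
  induction k with
  | zero =>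
    intro j hj _
    have : j = 0 := by omega
    subst this
    simpa using Pal.one (q ^ n)
  | succ k ih =>
    intro j hj hk
    by_cases h : j = k + 1
    · subst h
      simpa using Pal.one (q ^ n)
    · rw [Finset.prod_Ico_succ_top (by omega)]
      have h1 := ih j (by omega) (by omega)
      have e : (1 + C (q ^ k) * X) * (1 + C (q ^ (n - k)) * X)
          = (1 + C (q ^ k + q ^ (n - k)) * X + C (q ^ n) * X ^ 2 : PowerSeries ℝ) := by
        have e1 : q ^ n = q ^ k * q ^ (n - k) := by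
          rw [← pow_add]; congr 1; omega
        rw [e1, map_add, map_mul]
        ring
      rw [e]
      have h2 := h1.step (p := q ^ k + q ^ (n - k))
      have e3 : k + 1 - j = k - j + 1 := by omega
      rw [e3]
      exact h2

end Pool.H20.GI
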