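import Pool.Agent.H56.Inv.Final

/-!
Part (E2) of MP_1e629d_co: nonnegativity of `γ_{n,k}` at all but finitely many `q ∈ (0,1)` gives
nonnegativity at all real `q ≥ 0`.
-/

set_option autoImplicit false
open Finset

namespace Pool.H20.GI

open Pool.H56.InvQ

/-- evaluation of a palindromic polynomial at `q` and `1/q`. -/
theorem aeval_pal {p : Polynomial ℤ} {D : ℕ} (h1 : ∀ m, m ≤ D → p.coeff m = p.coeff (D - m))
    (h2 : ∀ m, D < m → p.coeff m = 0) {q : ℝ} (hq : 0 < q) :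
    Polynomial.aeval q p = q ^ D * Polynomial.aeval q⁻¹ p := by
  have hdeg : p.natDegree < D + 1 := by
    rw [Nat.lt_succ_iff, Polynomial.natDegree_le_iff_coeff_eq_zero]
    exact h2
  rw [Polynomial.aeval_eq_sum_range' hdeg, Polynomial.aeval_eq_sum_range' hdeg, Finset.mul_sum]
  rw [← Finset.sum_range_reflect (fun i => q ^ D * (p.coeff i • q⁻¹ ^ i)) (D + 1)]
  apply Finset.sum_congr rfl
  intro m hm
  rw [mem_range] at hm
  have e : D + 1 - 1 - m = D - m := by omega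
  rw [e, ← h1 m (by omega), zsmul_eq_mul, zsmul_eq_mul]
  have h3 : q ^ D * q⁻¹ ^ (D - m) = q ^ m := by
    have h4 : q ^ D = q ^ m * q ^ (D - m) := by
      rw [← pow_add]; congr 1; omega
    rw [h4, mul_assoc, ← mul_pow, mul_inv_cancel₀ hq.ne', one_pow, mul_one]
  rw [← h3]
  ring

/-- (E2). -/
theorem nonneg_all {n k : ℕ} (hn : 1 ≤ n) (hk : k ≤ (n - 1) / 2) {γ : ℕ → Polynomial ℤ}
    (hγ : invPoly n = expansion n γ) {T : Set ℝ} (hT : T.Countable)
    (h : ∀ q : ℝ, 0 < q → q < 1 → q ∉ T → 0 ≤ Polynomial.aeval q (γ k)) :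
    ∀ q : ℝ, 0 ≤ q → 0 ≤ Polynomial.aeval q (γ k) := by
  have hcl : ∀ q : ℝ, 0 ≤ q → q ≤ 1 → 0 ≤ Polynomial.aeval q (γ k) := by
    intro q h0 h1
    have hclosed : IsClosed {q : ℝ | 0 ≤ Polynomial.aeval q (γ k)} :=
      isClosed_le continuous_const (Polynomial.continuous_aeval (γ k))
    have hd : Dense Tᶜ := hT.dense_compl ℝ
    have h3 := hd.open_subset_closure_inter (isOpen_Ioo (a := (0 : ℝ)) (b := 1))
    have h4 : Set.Ioo (0 : ℝ) 1 ∩ Tᶜ ⊆ {q : ℝ | 0 ≤ Polynomial.aeval q (γ k)} := by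
      rintro x ⟨⟨hx0, hx1⟩, hx2⟩
      exact h x hx0 hx1 hx2
    have h5 : closure (Set.Ioo (0 : ℝ) 1 ∩ Tᶜ) ⊆ {q : ℝ | 0 ≤ Polynomial.aeval q (γ k)} :=
      hclosed.closure_subset_iff.2 h4
    have h6 : Set.Icc (0 : ℝ) 1 ⊆ closure (Set.Ioo (0 : ℝ) 1 ∩ Tᶜ) := by
      rw [← closure_Ioo (zero_ne_one)]
      exact closure_minimal h3 isClosed_closure
    exact h5 (h6 ⟨h0, h1⟩)
  intro q h0
  by_cases h1 : q ≤ 1
  · exact hcl q h0 h1
  · have hq : 0 < q := by linarith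
    obtain ⟨γ0, _, huniq, hpal⟩ := joint n hn
    have he := huniq γ hγ k hk
    obtain ⟨hp1, hp2, _⟩ := hpal k hk
    rw [← he] at hp1 hp2
    rw [aeval_pal hp1 hp2 hq]
    apply mul_nonneg (by positivity)
    apply hcl _ (by positivity)
    rw [inv_le_one₀ hq]
    linarith

end Pool.H20.GI
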