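import Pool.Agent.H53.RQ.Defs

/-!
Part (E3) of MP_1e629d_co: distinct subset sums of the powers of `q`, and the nodes `nod q m S`
are a rearrangement of `1, q, …, q^(m+1)`.
-/

set_option autoImplicit false
open Finset

namespace Pool.H20.GI

open Pool.H53.RQ

/-- the subsets of `{0,…,K-1}` have distinct sums of powers of `q`. -/
def Dist (K : ℕ) (q : ℝ) : Prop :=
  ∀ I ⊆ range K, ∀ J ⊆ range K, ∑ i ∈ I, q ^ i = ∑ i ∈ J, q ^ i → I = J

/-- all but finitely many `q` have distinct subset sums. -/
theorem dist_finite (K : ℕ) : {q : ℝ | ¬ Dist K q}.Finite := by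
  classical
  have h : {q : ℝ | ¬ Dist K q} ⊆ ⋃ p ∈ ((range K).powerset ×ˢ (range K).powerset).filter
      (fun p => p.1 ≠ p.2), {q : ℝ | Polynomial.IsRoot
        ((∑ i ∈ p.1, Polynomial.X ^ i) - ∑ i ∈ p.2, Polynomial.X ^ i : Polynomial ℝ) q} := by
    intro q hq
    simp only [Set.mem_ofPred_eq, Dist, not_forall] at hq
    obtain ⟨I, hI, J, hJ, hs, hne⟩ := hq
    rw [Set.mem_iUnion₂]
    refine ⟨(I, J), ?_, ?_⟩
    · rw [mem_filter, mem_product, mem_powerset, mem_powerset]
      exact ⟨⟨hI, hJ⟩, hne⟩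
    · simp only [Set.mem_ofPred_eq, Polynomial.IsRoot.def, Polynomial.eval_sub,
        Polynomial.eval_finsetSum, Polynomial.eval_pow, Polynomial.eval_X]
      linarith
  apply Set.Finite.subset _ h
  apply Set.Finite.biUnion (Finset.finite_toSet _)
  rintro ⟨I, J⟩ hIJ
  rw [Finset.mem_coe, mem_filter] at hIJ
  apply Polynomial.finite_setOfPred_isRoot
  intro h0
  apply hIJ.2
  ext i
  have h1 := congrArg (fun p => Polynomial.coeff p i) h0
  simp only [Polynomial.coeff_sub, Polynomial.finsetSum_coeff, Polynomial.coeff_X_pow,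
    Polynomial.coeff_zero, Finset.sum_ite_eq] at h1
  by_cases hI : i ∈ I <;> by_cases hJ : i ∈ J
  · exact ⟨fun _ => hJ, fun _ => hI⟩
  · rw [if_pos hI, if_neg hJ] at h1
    norm_num at h1
  · rw [if_neg hI, if_pos hJ] at h1
    norm_num at h1
  · exact ⟨fun h => absurd h hI, fun h => absurd h hJ⟩

/-- the exponents of the nodes. -/
def sg (m : ℕ) (S : Finset ℕ) (s : ℕ) : ℕ :=
  if m ≤ s then s
  else if s ∈ S then ((range m).filter fun i => s < i ∧ i ∈ S).card
  else m - 1 - ((range m).filter fun i => s < i ∧ i ∉ S).card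

theorem nod_eq (q : ℝ) (m : ℕ) (S : Finset ℕ) (s : ℕ) : nod q m S s = q ^ sg m S s := by
  unfold nod sg
  split_ifs <;> rfl

theorem cardA_lt {m : ℕ} {S : Finset ℕ} {s : ℕ} (hs : s < m) (hS : s ∈ S) :
    ((range m).filter fun i => s < i ∧ i ∈ S).card < ((range m).filter fun i => i ∈ S).card := by
  apply Finset.card_lt_card
  rw [Finset.ssubset_iff_of_subset]
  · exact ⟨s, by rw [mem_filter, mem_range]; exact ⟨hs, hS⟩, by
      rw [mem_filter]; exact fun h => lt_irrefl _ h.2.1⟩
  · intro i hi
    rw [mem_filter] at hi ⊢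
    exact ⟨hi.1, hi.2.2⟩

theorem cardB_lt {m : ℕ} {S : Finset ℕ} {s : ℕ} (hs : s < m) (hS : s ∉ S) :
    ((range m).filter fun i => s < i ∧ i ∉ S).card < ((range m).filter fun i => i ∉ S).card := by
  apply Finset.card_lt_card
  rw [Finset.ssubset_iff_of_subset]
  · exact ⟨s, by rw [mem_filter, mem_range]; exact ⟨hs, hS⟩, by
      rw [mem_filter]; exact fun h => lt_irrefl _ h.2.1⟩
  · intro i hi
    rw [mem_filter] at hi ⊢
    exact ⟨hi.1, hi.2.2⟩

theorem card_add (m : ℕ) (S : Finset ℕ) :
    ((range m).filter fun i => i ∈ S).card + ((range m).filter fun i => i ∉ S).card = m := by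
  rw [Finset.card_filter_add_card_filter_not, card_range]

theorem cardA_anti {m : ℕ} {S : Finset ℕ} {s t : ℕ} (hst : s < t) (ht : t < m) (hT : t ∈ S) :
    ((range m).filter fun i => t < i ∧ i ∈ S).card
      < ((range m).filter fun i => s < i ∧ i ∈ S).card := by
  apply Finset.card_lt_card
  rw [Finset.ssubset_iff_of_subset]
  · exact ⟨t, by rw [mem_filter, mem_range]; exact ⟨ht, hst, hT⟩, by
      rw [mem_filter]; exact fun h => lt_irrefl _ h.2.1⟩
  · intro i hi
    rw [mem_filter] at hi ⊢
    exact ⟨hi.1, by omega, hi.2.2⟩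

theorem cardB_anti {m : ℕ} {S : Finset ℕ} {s t : ℕ} (hst : s < t) (ht : t < m) (hT : t ∉ S) :
    ((range m).filter fun i => t < i ∧ i ∉ S).card
      < ((range m).filter fun i => s < i ∧ i ∉ S).card := by
  apply Finset.card_lt_card
  rw [Finset.ssubset_iff_of_subset]
  · exact ⟨t, by rw [mem_filter, mem_range]; exact ⟨ht, hst, hT⟩, by
      rw [mem_filter]; exact fun h => lt_irrefl _ h.2.1⟩
  · intro i hi
    rw [mem_filter] at hi ⊢
    exact ⟨hi.1, by omega, hi.2.2⟩

theorem sg_lt {m : ℕ} {S : Finset ℕ} {s : ℕ} (hs : s < m) : sg m S s < m := by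
  have h0 := card_add m S
  unfold sg
  rw [if_neg (by omega)]
  by_cases hS : s ∈ S
  · rw [if_pos hS]
    have := cardA_lt hs hS
    omega
  · rw [if_neg hS]
    have := cardB_lt hs hS
    omega

theorem sg_mem {m : ℕ} {S : Finset ℕ} {s : ℕ} (hs : s < m + 2) : sg m S s < m + 2 := by
  by_cases h : m ≤ s
  · unfold sg
    rw [if_pos h]
    exact hs
  · have := sg_lt (S := S) (show s < m by omega)
    omega

/-- `sg` is injective. -/
theorem sg_inj {m : ℕ} {S : Finset ℕ} : Function.Injective (sg m S) := by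
  have key : ∀ s t, s < t → sg m S s ≠ sg m S t := by
    intro s t hst heq
    by_cases ht : m ≤ t
    · have h1 : sg m S t = t := by unfold sg; rw [if_pos ht]
      by_cases hs : m ≤ s
      · have h2 : sg m S s = s := by unfold sg; rw [if_pos hs]
        omega
      · have h2 := sg_lt (S := S) (show s < m by omega)
        omega
    · have hs : ¬ m ≤ s := by omega
      have h0 := card_add m S
      unfold sg at heq
      rw [if_neg hs, if_neg ht] at heq
      by_cases hS : s ∈ S <;> by_cases hT : t ∈ S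
      · rw [if_pos hS, if_pos hT] at heq
        have := cardA_anti hst (show t < m by omega) hT
        omega
      · rw [if_pos hS, if_neg hT] at heq
        have h1 := cardA_lt (show s < m by omega) hS
        have h2 := cardB_lt (show t < m by omega) hT
        omega
      · rw [if_neg hS, if_pos hT] at heq
        have h1 := cardB_lt (show s < m by omega) hS
        have h2 := cardA_lt (show t < m by omega) hT
        omega
      · rw [if_neg hS, if_neg hT] at heq
        have h1 := cardB_anti hst (show t < m by omega) hT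
        have h2 := cardB_lt (show s < m by omega) hS
        omega
  intro s t h
  rcases lt_trichotomy s t with h1 | h1 | h1
  · exact absurd h (key s t h1)
  · exact h1
  · exact absurd h.symm (key t s h1)

/-- the Schur P polynomial only depends on the set of points. -/
theorem P_image {x y : ℕ → ℝ} {σ : ℕ → ℕ} (hσ : Function.Injective σ) (hy : ∀ j, y j = x (σ j)) :
    ∀ (l : List ℕ) (J : Finset ℕ), P y l J = P x l (J.image σ) := by
  intro l
  induction l with
  | nil => intro J; rfl
  | cons a l ih =>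
    intro J
    simp only [P]
    rw [Finset.sum_image (fun i _ j _ h => hσ h)]
    apply Finset.sum_congr rfl
    intro j _
    have h1 : (J.image σ).erase (σ j) = (J.erase j).image σ := by
      rw [Finset.image_erase hσ]
    rw [ih, h1, Finset.prod_image (fun i _ j _ h => hσ h), hy j]
    congr 2
    apply Finset.prod_congr rfl
    intro i _
    rw [hy i]

theorem image_sub {m : ℕ} {S J : Finset ℕ} (hJ : J ⊆ range (m + 2)) :
    J.image (sg m S) ⊆ range (m + 2) := by
  intro i hi
  rw [mem_image] at hi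
  obtain ⟨j, hj, rfl⟩ := hi
  rw [mem_range]
  exact sg_mem (mem_range.1 (hJ hj))

/-- the nodes have distinct subset sums. -/
theorem nod_dist {q : ℝ} {m : ℕ} (hq : Dist (m + 2) q) (S : Finset ℕ) :
    ∀ I ⊆ range (m + 2), ∀ J ⊆ range (m + 2),
      ∑ i ∈ I, nod q m S i = ∑ i ∈ J, nod q m S i → I = J := by
  intro I hI J hJ h
  have e : ∀ L : Finset ℕ, ∑ i ∈ L, nod q m S i = ∑ i ∈ L.image (sg m S), q ^ i := by
    intro L
    rw [Finset.sum_image (fun i _ j _ h => sg_inj h)]
    exact Finset.sum_congr rfl fun i _ => nod_eq q m S i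
  rw [e, e] at h
  exact Finset.image_injective sg_inj (hq _ (image_sub hI) _ (image_sub hJ) h)

/-- transfer of an interpolating polynomial to the rearranged nodes. -/
theorem nod_interp {q : ℝ} {m : ℕ} {l : List ℕ} {g : Polynomial ℝ}
    (hg : ∀ J ⊆ range (m + 2), g.eval (∑ i ∈ J, q ^ i) = P (fun i => q ^ i) l J)
    (S : Finset ℕ) : ∀ J ⊆ range (m + 2),
      g.eval (∑ i ∈ J, nod q m S i) = P (nod q m S) l J := by
  intro J hJ
  have e : ∑ i ∈ J, nod q m S i = ∑ i ∈ J.image (sg m S), q ^ i := by
    rw [Finset.sum_image (fun i _ j _ h => sg_inj h)]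
    exact Finset.sum_congr rfl fun i _ => nod_eq q m S i
  rw [e, hg _ (image_sub hJ)]
  exact (P_image sg_inj (fun j => nod_eq q m S j) l J).symm

/-- an interpolating polynomial exists. -/
theorem exists_interp {q : ℝ} {K : ℕ} (hq : Dist K q) (f : Finset ℕ → ℝ) :
    ∃ g : Polynomial ℝ, ∀ J ⊆ range K, g.eval (∑ i ∈ J, q ^ i) = f J := by
  classical
  refine ⟨Lagrange.interpolate (range K).powerset (fun J => ∑ i ∈ J, q ^ i) f, ?_⟩
  intro J hJ
  have h1 : Set.InjOn (fun J : Finset ℕ => ∑ i ∈ J, q ^ i) ((range K).powerset : Set (Finset ℕ)) := by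
    intro I hI J hJ h
    rw [Finset.mem_coe, mem_powerset] at hI hJ
    exact hq I hI J hJ h
  exact Lagrange.eval_interpolate_at_node f h1 (mem_powerset.2 hJ)

end Pool.H20.GI
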