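import Pool.Agent.H20.GI.PE
import Pool.Agent.H20.GI.E2
import Pool.Agent.H20.GI.E3

/-!
MP_1e629d_co: the assembly. The statements of the parts (A), (B), (C), (D) are hypotheses here.
-/

set_option autoImplicit false
open Finset

namespace Pool.H20.GI

open Pool.H53.RQ

/-- statement of part (A). -/
def PartA : Prop := ∀ (q : ℝ), 0 < q → q < 1 → ∀ (n N : ℕ),
    F q n N = ∑ s ∈ SP n, cf q (dl s) * P (fun i => q ^ i) (dl s) (range N)

/-- statement of part (B). -/
def PartB : Prop := ∀ (q : ℝ), 0 < q → q < 1 → ∀ (s : Finset ℕ), 0 ∉ s → 0 ≤ cf q (dl s)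

/-- statement of part (C). -/
def PartC : Prop := ∀ (q : ℝ), 0 < q → q < 1 → ∀ (m : ℕ), ∃ c0 : ℝ, ∀ g : Polynomial ℝ,
    q ^ ((m + 2).choose 2) * (∏ i ∈ range (m + 1), (1 + q ^ (i + 1))) * W q m g
      = (∑ a ∈ range (m + 2), ∑ b ∈ range (m + 2 - a),
          coef q (m + 1) a b * g.eval (∑ j ∈ Ico b (m + 2 - a), q ^ j)) + c0 * g.eval 0

/-- statement of part (D). -/
def PartD : Prop := ∀ (K : ℕ) (y : ℕ → ℝ) (pos : ℕ → Bool), (∀ i, i < K → 0 < y i) →
    (∀ I ⊆ range K, ∀ J ⊆ range K, ∑ i ∈ I, y i = ∑ i ∈ J, y i → I = J) →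
    ∀ (s : Finset ℕ), 0 ∉ s → ∀ (g : Polynomial ℝ),
    (∀ J ⊆ range K, g.eval (∑ i ∈ J, y i) = P y (dl s) J) →
    ∀ (u v : Finset ℕ), u ⊆ range K → v ⊆ range K →
    0 ≤ me (Polynomial.aeval (Dop K y pos) g) v u

theorem P_scale {x : ℕ → ℝ} {c : ℝ} (hc : c ≠ 0) : ∀ (l : List ℕ) (J : Finset ℕ),
    P (fun i => c * x i) l J = c ^ l.sum * P x l J := by
  intro l
  induction l with
  | nil => intro J; simp [P]
  | cons a l ih =>
    intro J
    simp only [P, List.sum_cons]
    rw [Finset.mul_sum]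
    apply Finset.sum_congr rfl
    intro j _
    rw [ih]
    have h1 : ∀ i ∈ J.erase j, (c * x j + c * x i) / (c * x j - c * x i)
        = (x j + x i) / (x j - x i) := by
      intro i _
      rw [← mul_add, ← mul_sub, mul_div_mul_left _ _ hc]
    rw [Finset.prod_congr rfl h1, mul_pow, pow_add]
    ring

/-- the window `[b, b+d)`. -/
theorem P_window {q : ℝ} (hq : 0 < q) (l : List ℕ) (b e : ℕ) :
    P (fun i => q ^ i) l (Ico b e) = q ^ (b * l.sum) * P (fun i => q ^ i) l (range (e - b)) := by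
  have h1 := P_image (x := fun i => q ^ i) (y := fun i => q ^ b * q ^ i) (σ := fun i => i + b)
    (fun i j h => by simpa using h) (fun j => by rw [← pow_add, add_comm]) l (range (e - b))
  have h2 : (range (e - b)).image (fun i => i + b) = Ico b e := by
    ext i
    rw [mem_image, mem_Ico]
    constructor
    · rintro ⟨j, hj, rfl⟩
      rw [mem_range] at hj
      omega
    · intro hi
      exact ⟨i - b, by rw [mem_range]; omega, by omega⟩
  rw [h2] at h1
  rw [← h1, P_scale (pow_ne_zero b hq.ne'), pow_mul]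

theorem sum_dl (s : Finset ℕ) : (dl s).sum = ∑ i ∈ s, i := by
  unfold dl
  rw [List.sum_reverse, ← Finset.sum_map_toList s (fun i => i)]
  have h1 : (s.sort (· ≤ ·)).Perm s.toList := by
    rw [← Multiset.coe_eq_coe, Finset.sort_eq, Finset.coe_toList]
  rw [h1.sum_eq, List.map_id']

theorem mem_SP {n : ℕ} {s : Finset ℕ} (h : s ∈ SP n) : 0 ∉ s ∧ ∑ i ∈ s, i = n := by
  unfold SP at h
  rw [mem_filter, mem_powerset] at h
  refine ⟨fun h0 => ?_, h.2⟩
  have := mem_Icc.1 (h.1 h0)
  omega

theorem P_empty {x : ℕ → ℝ} {l : List ℕ} (h : l ≠ []) : P x l ∅ = 0 := by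
  cases l with
  | nil => exact absurd rfl h
  | cons a l => simp [P]

theorem dl_ne {n : ℕ} (hn : 1 ≤ n) {s : Finset ℕ} (h : s ∈ SP n) : dl s ≠ [] := by
  intro h0
  have h1 := sum_dl s
  rw [h0, (mem_SP h).2] at h1
  simp at h1
  omega

/-- nonnegativity of the window functional of one Schur P polynomial. -/
theorem window_nonneg (hC : PartC) (hD : PartD) {q : ℝ} (hq0 : 0 < q) (hq1 : q < 1) {m n : ℕ}
    (hn : 1 ≤ n) (hdist : Dist (m + 2) q) {s : Finset ℕ} (hs : s ∈ SP n) :
    0 ≤ ∑ a ∈ range (m + 2), ∑ b ∈ range (m + 2 - a),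
      coef q (m + 1) a b * (q ^ (b * n) * P (fun i => q ^ i) (dl s) (range (m + 2 - a - b))) := by
  obtain ⟨c0, hc⟩ := hC q hq0 hq1 m
  obtain ⟨g, hg⟩ := exists_interp hdist (P (fun i => q ^ i) (dl s))
  have h1 := hc g
  have h0 : g.eval 0 = 0 := by
    have := hg ∅ (by simp)
    rw [Finset.sum_empty, P_empty (dl_ne hn hs)] at this
    exact this
  rw [h0, mul_zero, add_zero] at h1
  have h2 : ∀ a ∈ range (m + 2), ∀ b ∈ range (m + 2 - a),
      coef q (m + 1) a b * g.eval (∑ j ∈ Ico b (m + 2 - a), q ^ j)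
      = coef q (m + 1) a b * (q ^ (b * n) * P (fun i => q ^ i) (dl s) (range (m + 2 - a - b))) := by
    intro a _ b _
    rw [hg _ (by intro i hi; rw [mem_Ico] at hi; rw [mem_range]; omega), P_window hq0, sum_dl,
      (mem_SP hs).2]
  rw [Finset.sum_congr rfl fun a ha => Finset.sum_congr rfl (h2 a ha)] at h1
  rw [← h1]
  apply mul_nonneg
  · apply mul_nonneg (by positivity)
    apply Finset.prod_nonneg
    intro i _
    positivity
  · unfold W
    apply Finset.sum_nonneg
    intro S hS
    rw [mem_powerset] at hS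
    apply mul_nonneg (by positivity)
    apply hD (m + 2) (nod q m S) (sgn m S) _ (nod_dist hdist S) s (mem_SP hs).1 g
      (nod_interp hg S)
    · exact hS.trans (Finset.range_subset_range.2 (by omega))
    · intro i hi
      rw [mem_union, mem_insert, mem_singleton] at hi
      rw [mem_range]
      rcases hi with h | h | h
      · have := mem_range.1 (hS h)
        omega
      · omega
      · omega
    · intro i _
      rw [nod_eq]
      positivity

/-- nonnegativity at a good `q ∈ (0,1)`. -/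
theorem gamma_good (hA : PartA) (hB : PartB) (hC : PartC) (hD : PartD) {n k : ℕ} (hn : 1 ≤ n)
    (hk : k ≤ (n - 1) / 2) {γ : ℕ → Polynomial ℤ}
    (hγ : Pool.H56.InvQ.invPoly n = Pool.H56.InvQ.expansion n γ) {q : ℝ} (hq0 : 0 < q)
    (hq1 : q < 1) (hdist : Dist (k + 1) q) : 0 ≤ Polynomial.aeval q (γ k) := by
  have h1 := partE q hq0 hq1 n k hn hk γ hγ
  have h2 : 0 ≤ q ^ ((k + 1).choose 2) * Polynomial.aeval q (γ k) := by
    rw [h1]
    have h3 : ∑ a ∈ range (k + 1), ∑ b ∈ range (k + 1 - a),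
          coef q k a b * (q ^ (b * n) * F q n (k + 1 - a - b))
        = ∑ s ∈ SP n, cf q (dl s) * ∑ a ∈ range (k + 1), ∑ b ∈ range (k + 1 - a),
          coef q k a b * (q ^ (b * n) * P (fun i => q ^ i) (dl s) (range (k + 1 - a - b))) := by
      have h4 : ∀ a ∈ range (k + 1), ∀ b ∈ range (k + 1 - a),
          coef q k a b * (q ^ (b * n) * F q n (k + 1 - a - b))
          = ∑ s ∈ SP n, cf q (dl s) *
            (coef q k a b * (q ^ (b * n) * P (fun i => q ^ i) (dl s) (range (k + 1 - a - b)))) := by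
        intro a _ b _
        rw [hA q hq0 hq1, Finset.mul_sum, Finset.mul_sum]
        apply Finset.sum_congr rfl
        intro s _
        ring
      rw [Finset.sum_congr rfl fun a ha => Finset.sum_congr rfl (h4 a ha)]
      have h5 : ∀ a ∈ range (k + 1), ∑ b ∈ range (k + 1 - a), ∑ s ∈ SP n, cf q (dl s) *
            (coef q k a b * (q ^ (b * n) * P (fun i => q ^ i) (dl s) (range (k + 1 - a - b))))
          = ∑ s ∈ SP n, ∑ b ∈ range (k + 1 - a), cf q (dl s) *
            (coef q k a b * (q ^ (b * n) * P (fun i => q ^ i) (dl s) (range (k + 1 - a - b)))) :=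
        fun a _ => Finset.sum_comm
      rw [Finset.sum_congr rfl h5, Finset.sum_comm]
      apply Finset.sum_congr rfl
      intro s _
      rw [Finset.mul_sum]
      apply Finset.sum_congr rfl
      intro a _
      rw [Finset.mul_sum]
    rw [h3]
    apply Finset.sum_nonneg
    intro s hs
    apply mul_nonneg (hB q hq0 hq1 s (mem_SP hs).1)
    cases k with
    | zero =>
      simp only [zero_add, Finset.range_one, Finset.sum_singleton, Nat.sub_zero, zero_mul,
        pow_zero, one_mul]
      have hcoef : 0 ≤ coef q 0 0 0 := by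
        unfold coef pk qp
        simp
        positivity
      apply mul_nonneg hcoef
      have hP : ∀ l : List ℕ, 0 ≤ P (fun i => q ^ i) l {0} := by
        intro l
        cases l with
        | nil => simp [P]
        | cons a l =>
          simp only [P, Finset.sum_singleton, pow_zero, one_pow, one_mul]
          have : ({0} : Finset ℕ).erase 0 = ∅ := by simp
          rw [this]
          cases l with
          | nil => simp [P]
          | cons b l => simp [P]
      exact hP _
    | succ m => exact window_nonneg hC hD hq0 hq1 hn hdist hs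
  exact nonneg_of_mul_nonneg_right h2 (by positivity)

/-- THE ASSEMBLY: nonnegativity of `γ_{n,k}(q)` at every real `q ≥ 0`. -/
theorem frame (hA : PartA) (hB : PartB) (hC : PartC) (hD : PartD) {n k : ℕ} (hn : 1 ≤ n)
    (hk : k ≤ (n - 1) / 2) {γ : ℕ → Polynomial ℤ}
    (hγ : Pool.H56.InvQ.invPoly n = Pool.H56.InvQ.expansion n γ) :
    ∀ q : ℝ, 0 ≤ q → 0 ≤ Polynomial.aeval q (γ k) :=
  nonneg_all hn hk hγ (dist_finite (k + 1)).countable fun q h0 h1 h2 =>
    gamma_good hA hB hC hD hn hk hγ h0 h1 (not_not.1 h2)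

end Pool.H20.GI
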