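import Pool.Agent.H20.GI.Coef
import Pool.Agent.H56.Inv.Final

/-!
The interval formula for the `q`-gamma coefficients `γ_{n,k}(q)` of the involutions at a real
`q > 0`, `q ≠ 1`:
`q^{(k+1 choose 2)} γ_{n,k}(q) = ∑_{a+b ≤ k} icoef q k a b * (q^n)^b * F_n(k+1-a-b)`,
where `F_n(N) = Fp n N` evaluated at `q` is the generating function of the symmetric `N × N`
matrices over `ℕ` with total `n`.
-/

set_option autoImplicit false
open Finset

namespace Pool.H20.GI

open Pool.H56.Inv

/-- evaluation of an integer polynomial at a real number. -/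
noncomputable def ev (q : ℝ) : Polynomial ℤ →+* ℝ := Polynomial.eval₂RingHom (Int.castRingHom ℝ) q

theorem ev_X (q : ℝ) : ev q Polynomial.X = q := by simp [ev]

theorem map_Den (q : ℝ) (n : ℕ) : PowerSeries.map (ev q) (Den n) = Ds q n := by
  unfold Den Ds
  rw [map_prod]
  apply Finset.prod_congr rfl
  intro i _
  rw [map_sub, map_one, map_mul, PowerSeries.map_C, PowerSeries.map_X, map_pow, ev_X]

theorem map_Es (q : ℝ) (n k : ℕ) : PowerSeries.map (ev q) (Es n k)
    = ∏ i ∈ Icc (k + 1) (n - 1 - k), (1 + PowerSeries.C (q ^ i) * PowerSeries.X) := by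
  unfold Es
  rw [map_prod]
  apply Finset.prod_congr rfl
  intro i _
  rw [map_add, map_one, map_mul, PowerSeries.map_C, PowerSeries.map_X, map_pow, ev_X]

/-- splitting of `∏_{i=j+1}^{n-1-j}` for `j < k`. -/
theorem Es_split (q : ℝ) {n j k : ℕ} (hj : j < k) (hk : 2 * k + 1 ≤ n) :
    PowerSeries.map (ev q) (Es n j)
      = (∏ i ∈ Ico (j + 1) k, ((1 + PowerSeries.C (q ^ i) * PowerSeries.X)
          * (1 + PowerSeries.C (q ^ (n - i)) * PowerSeries.X))) * Ps q k n := by
  rw [map_Es]
  have h1 : Icc (j + 1) (n - 1 - j) = Ico (j + 1) (n - j) := by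
    ext i
    simp only [mem_Icc, mem_Ico]
    omega
  rw [h1, ← Finset.prod_Ico_consecutive _ (show j + 1 ≤ k by omega) (show k ≤ n - j by omega),
    ← Finset.prod_Ico_consecutive _ (show k ≤ n + 1 - k by omega) (show n + 1 - k ≤ n - j by omega),
    Finset.prod_mul_distrib]
  have h2 : ∏ i ∈ Ico (n + 1 - k) (n - j), (1 + PowerSeries.C (q ^ i) * PowerSeries.X : PowerSeries ℝ)
      = ∏ i ∈ Ico (j + 1) k, (1 + PowerSeries.C (q ^ (n - i)) * PowerSeries.X) := by
    refine Finset.prod_bij' (fun i _ => n - i) (fun i _ => n - i) ?_ ?_ ?_ ?_ ?_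
    · intro i hi
      rw [mem_Ico] at hi ⊢
      omega
    · intro i hi
      rw [mem_Ico] at hi ⊢
      omega
    · intro i hi
      rw [mem_Ico] at hi
      omega
    · intro i hi
      rw [mem_Ico] at hi
      omega
    · intro i hi
      rw [mem_Ico] at hi
      have : n - (n - i) = i := by omega
      rw [this]
  rw [h2]
  unfold Ps
  ring

theorem coeff_zero_Es (q : ℝ) (n k : ℕ) :
    PowerSeries.coeff 0 (PowerSeries.map (ev q) (Es n k)) = 1 := by
  rw [map_Es, PowerSeries.coeff_zero_eq_constantCoeff_apply, map_prod]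
  apply Finset.prod_eq_one
  intro i _
  simp

/-- two power series which agree up to degree `k` have products with the same coefficient. -/
theorem coeff_mul_congr {F G W : PowerSeries ℝ} {k : ℕ}
    (h : ∀ m, m ≤ k → PowerSeries.coeff m F = PowerSeries.coeff m G) :
    PowerSeries.coeff k (F * W) = PowerSeries.coeff k (G * W) := by
  rw [PowerSeries.coeff_mul, PowerSeries.coeff_mul]
  apply Finset.sum_congr rfl
  intro p hp
  rw [HasAntidiagonal.mem_antidiagonal] at hp
  rw [h p.1 (by omega)]

/-- THE INTERVAL FORMULA. -/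
theorem interval {n k : ℕ} {c : ℕ → Polynomial ℤ} (hc : Ev n c) (hn : 1 ≤ n)
    (hk : k ≤ (n - 1) / 2) {q : ℝ} (hq : 0 < q) (hq1 : q ≠ 1) :
    ev q (c k) = ∑ s ∈ range (k + 1), ∑ p ∈ antidiagonal s,
      icoef q k p.1 p.2 * (q ^ n) ^ p.2 * ev q (Fp n (k + 1 - s)) := by
  have hkn : 2 * k + 1 ≤ n := by omega
  set H := PowerSeries.map (ev q) (Hs n) with hH
  have hHD : H * Ds q n = 1 := by
    rw [hH, ← map_Den, ← map_mul, Hs_Den, map_one]
  set UV := Us q k * Vs q k n with hUV
  have hUVP : UV * Ps q k n = Ds q n := UVP hq hq1 (by omega)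
  set Φ : PowerSeries ℝ := PowerSeries.mk fun m => ev q (Fp n (m + 1)) with hΦ
  set Ψ : PowerSeries ℝ := ∑ j ∈ range (k + 1), PowerSeries.C (ev q (c j))
    * (PowerSeries.X ^ j * (PowerSeries.map (ev q) (Es n j) * H)) with hΨ
  have hagree : ∀ m, m ≤ k → PowerSeries.coeff m Φ = PowerSeries.coeff m Ψ := by
    intro m hm
    rw [hΦ, PowerSeries.coeff_mk, hc m (by omega), hΨ, map_sum, map_sum]
    have h1 : ∀ j ∈ range (k + 1), PowerSeries.coeff m (PowerSeries.C (ev q (c j))
        * (PowerSeries.X ^ j * (PowerSeries.map (ev q) (Es n j) * H)))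
        = if j ≤ m then ev q (c j * PowerSeries.coeff (m - j) (Bs n j)) else 0 := by
      intro j _
      rw [PowerSeries.coeff_C_mul, PowerSeries.coeff_X_pow_mul']
      split_ifs
      · rw [hH, ← map_mul, PowerSeries.coeff_map, map_mul (ev q) (c j)]
        rfl
      · simp
    rw [Finset.sum_congr rfl h1, ← Finset.sum_filter]
    apply Finset.sum_congr
    · ext j
      rw [mem_filter, mem_range, mem_range]
      omega
    · intro j _
      rfl
  have hL := coeff_mul_congr (W := (1 - PowerSeries.C (q ^ n) * PowerSeries.X ^ 2) * UV) hagree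
  -- right side
  have hR : PowerSeries.coeff k (Ψ * ((1 - PowerSeries.C (q ^ n) * PowerSeries.X ^ 2) * UV))
      = ev q (c k) := by
    rw [hΨ, Finset.sum_mul, map_sum, Finset.sum_range_succ]
    have h1 : ∀ j ∈ range k, PowerSeries.coeff k (PowerSeries.C (ev q (c j))
        * (PowerSeries.X ^ j * (PowerSeries.map (ev q) (Es n j) * H))
        * ((1 - PowerSeries.C (q ^ n) * PowerSeries.X ^ 2) * UV)) = 0 := by
      intro j hj
      rw [mem_range] at hj
      have e : PowerSeries.C (ev q (c j))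
          * (PowerSeries.X ^ j * (PowerSeries.map (ev q) (Es n j) * H))
          * ((1 - PowerSeries.C (q ^ n) * PowerSeries.X ^ 2) * UV)
          = PowerSeries.C (ev q (c j)) * (PowerSeries.X ^ j *
            ((1 - PowerSeries.C (q ^ n) * PowerSeries.X ^ 2) *
              ∏ i ∈ Ico (j + 1) k, ((1 + PowerSeries.C (q ^ i) * PowerSeries.X)
                * (1 + PowerSeries.C (q ^ (n - i)) * PowerSeries.X)))) := by
        rw [Es_split q hj hkn]
        set N := ∏ i ∈ Ico (j + 1) k, ((1 + PowerSeries.C (q ^ i) * PowerSeries.X)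
                * (1 + PowerSeries.C (q ^ (n - i)) * PowerSeries.X))
        calc PowerSeries.C (ev q (c j)) * (PowerSeries.X ^ j * (N * Ps q k n * H))
              * ((1 - PowerSeries.C (q ^ n) * PowerSeries.X ^ 2) * UV)
            = PowerSeries.C (ev q (c j)) * (PowerSeries.X ^ j *
              ((1 - PowerSeries.C (q ^ n) * PowerSeries.X ^ 2) * N)) * (H * (UV * Ps q k n)) := by
              ring
          _ = _ := by rw [hUVP, hHD, mul_one]
      rw [e, PowerSeries.coeff_C_mul, PowerSeries.coeff_X_pow_mul', if_pos hj.le]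
      have h2 := Pal.prod (q := q) (n := n) k (j + 1) (by omega) (by omega)
      have h3 := h2.mid (pow_ne_zero n hq.ne')
      have h4 : k - (j + 1) + 1 = k - j := by omega
      rw [h4] at h3
      rw [h3, mul_zero]
    rw [Finset.sum_congr rfl h1, Finset.sum_const_zero, zero_add]
    have e : PowerSeries.C (ev q (c k))
          * (PowerSeries.X ^ k * (PowerSeries.map (ev q) (Es n k) * H))
          * ((1 - PowerSeries.C (q ^ n) * PowerSeries.X ^ 2) * UV)
          = PowerSeries.C (ev q (c k)) * (PowerSeries.X ^ k *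
            (PowerSeries.map (ev q) (Es n k) * H *
            ((1 - PowerSeries.C (q ^ n) * PowerSeries.X ^ 2) * UV))) := by ring
    rw [e, PowerSeries.coeff_C_mul, PowerSeries.coeff_X_pow_mul', if_pos le_rfl, Nat.sub_self]
    have hEs := coeff_zero_Es q n k
    have hH0 : PowerSeries.coeff 0 H = 1 := by
      rw [hH, PowerSeries.coeff_map, Hs_zero, map_one]
    have hU0 : PowerSeries.coeff 0 (Us q k) = 1 := by simp [Us, Uc, pr_zero]
    have hV0 : PowerSeries.coeff 0 (Vs q k n) = 1 := by simp [Vs, Vc, pr_zero]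
    rw [PowerSeries.coeff_zero_eq_constantCoeff_apply] at hEs hH0 hU0 hV0 ⊢
    rw [map_mul, map_mul, map_mul, hEs, hH0, hUV, map_mul, hU0, hV0]
    simp
  rw [← hR, ← hL, mul_comm, PowerSeries.coeff_mul, Finset.Nat.sum_antidiagonal_eq_sum_range_succ_mk]
  apply Finset.sum_congr rfl
  intro s hs
  rw [mem_range] at hs
  simp only
  rw [hUV, coeff_W hq hq1, Finset.sum_mul, hΦ, PowerSeries.coeff_mk]
  have h5 : k - s + 1 = k + 1 - s := by omega
  rw [h5]

end Pool.H20.GI
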