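import Pool.Agent.H20.GI.Main
import Pool.Agent.H53.RQ.Defs

/-!
Part (E) of MP_1e629d_co: the interval formula in the common notation.
-/

set_option autoImplicit false
open Finset

namespace Pool.H20.GI

open Pool.H56.Inv

theorem ev_eq_aeval (q : ℝ) (p : Polynomial ℤ) : ev q p = Polynomial.aeval q p := by
  unfold ev
  rw [Polynomial.coe_eval₂RingHom, Polynomial.aeval_def]
  rfl

theorem pr_pk (q : ℝ) (K a : ℕ) : pr q K a = Pool.H53.RQ.pk q K a / Pool.H53.RQ.qp q a := by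
  unfold pr Pool.H53.RQ.pk Pool.H53.RQ.qp
  rw [Finset.prod_div_distrib]

theorem icoef_coef (q : ℝ) (k a b : ℕ) : icoef q k a b = Pool.H53.RQ.coef q k a b := by
  unfold icoef Pool.H53.RQ.coef
  rw [pr_pk, pr_pk]
  generalize Pool.H53.RQ.pk q (k + 1) a = x
  generalize Pool.H53.RQ.pk q (k + 1) b = y
  generalize Pool.H53.RQ.qp q a = z
  generalize Pool.H53.RQ.qp q b = t
  rw [div_eq_mul_inv, div_eq_mul_inv, div_eq_mul_inv, div_eq_mul_inv _ (_ * z * t), mul_inv,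
    mul_inv]
  ring

/-- Part (E): the interval formula for `γ_{n,k}(q)`, any real `q > 0`, `q ≠ 1`. -/
theorem partE' (q : ℝ) (hq0 : 0 < q) (hq1 : q ≠ 1) (n k : ℕ) (hn : 1 ≤ n) (hk : k ≤ (n - 1) / 2)
    (γ : ℕ → Polynomial ℤ) (hγ : Pool.H56.InvQ.invPoly n = Pool.H56.InvQ.expansion n γ) :
    q ^ ((k + 1).choose 2) * Polynomial.aeval q (γ k)
      = ∑ a ∈ range (k + 1), ∑ b ∈ range (k + 1 - a),
          Pool.H53.RQ.coef q k a b * (q ^ (b * n) * Pool.H53.RQ.F q n (k + 1 - a - b)) := by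
  have hev := ev_of_expansion ((Pool.H56.InvQ.expansion_iff n γ).1 hγ)
  have h1 := interval hev hn hk hq0 hq1
  rw [map_mul, map_pow, ev_X, ev_eq_aeval] at h1
  rw [h1]
  have h2 := Finset.sum_range_diag_flip (k + 1) (fun a b =>
    Pool.H53.RQ.coef q k a b * (q ^ (b * n) * Pool.H53.RQ.F q n (k + 1 - a - b)))
  rw [← h2]
  apply Finset.sum_congr rfl
  intro s hs
  rw [mem_range] at hs
  rw [Finset.Nat.sum_antidiagonal_eq_sum_range_succ_mk]
  apply Finset.sum_congr rfl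
  intro a ha
  rw [mem_range] at ha
  simp only
  have h3 : k + 1 - a - (s - a) = k + 1 - s := by omega
  rw [h3, icoef_coef, ev_eq_aeval, ← pow_mul, mul_comm n, mul_assoc]
  rfl

/-- Part (E) exactly in the form of `Pool.H53.RQ.partE`. -/
theorem partE (q : ℝ) (hq0 : 0 < q) (hq1 : q < 1) (n k : ℕ) (hn : 1 ≤ n) (hk : k ≤ (n - 1) / 2)
    (γ : ℕ → Polynomial ℤ) (hγ : Pool.H56.InvQ.invPoly n = Pool.H56.InvQ.expansion n γ) :
    q ^ ((k + 1).choose 2) * Polynomial.aeval q (γ k)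
      = ∑ a ∈ range (k + 1), ∑ b ∈ range (k + 1 - a),
          Pool.H53.RQ.coef q k a b * (q ^ (b * n) * Pool.H53.RQ.F q n (k + 1 - a - b)) :=
  partE' q hq0 hq1.ne n k hn hk γ hγ

end Pool.H20.GI
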