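import Mathlib

/-!
Power series over `ℝ` and `q`-difference equations: the series
`U = (t;q)_∞ / (-t q^k;q)_∞` and `V = (-t q^{n+1-k};q)_∞ / (t q^{n+1};q)_∞` by their coefficients, and
`U V ∏_{i=k}^{n-k} (1 + t q^i) = ∏_{i=0}^{n} (1 - t q^i)`.
-/

set_option autoImplicit false
open Finset

namespace Pool.H20.GI

open PowerSeries

/-- `(-q^{-K};q)_a / (q;q)_a` with `K = k`. -/
noncomputable def pr (q : ℝ) (k a : ℕ) : ℝ := ∏ i ∈ range a, (1 + q ^ i / q ^ k) / (1 - q ^ (i + 1))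

theorem pr_zero (q : ℝ) (k : ℕ) : pr q k 0 = 1 := by simp [pr]

theorem pr_succ (q : ℝ) (k a : ℕ) :
    pr q k (a + 1) = pr q k a * ((1 + q ^ a / q ^ k) / (1 - q ^ (a + 1))) := by
  unfold pr
  rw [prod_range_succ]

theorem one_sub_pow_ne {q : ℝ} (hq : 0 < q) (hq1 : q ≠ 1) (a : ℕ) : 1 - q ^ (a + 1) ≠ 0 := by
  intro h
  have h1 : q ^ (a + 1) = 1 := by linarith
  exact hq1 ((pow_eq_one_iff_of_nonneg hq.le (Nat.succ_ne_zero a)).1 h1)

/-- uniqueness for the `q`-difference equation. -/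
theorem qdiff_unique {q c : ℝ} (hq : 0 < q) (hq1 : q ≠ 1) {F G : PowerSeries ℝ}
    (hF : (1 - X) * rescale q F = (1 - C c * X) * F)
    (hG : (1 - X) * rescale q G = (1 - C c * X) * G)
    (h0 : coeff 0 F = coeff 0 G) : F = G := by
  have key : ∀ {H : PowerSeries ℝ}, (1 - X) * rescale q H = (1 - C c * X) * H → ∀ m,
      (1 - q ^ (m + 1)) * coeff (m + 1) H = (c - q ^ m) * coeff m H := by
    intro H hH m
    have h1 := congrArg (coeff (m + 1)) hH
    rw [sub_mul, sub_mul, one_mul, one_mul, map_sub, map_sub, mul_comm (X : PowerSeries ℝ),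
      coeff_succ_mul_X, mul_comm (C c) X, mul_assoc, mul_comm X, coeff_succ_mul_X, coeff_C_mul,
      coeff_rescale, coeff_rescale] at h1
    linear_combination -h1
  ext m
  induction m with
  | zero => exact h0
  | succ m ih =>
    have h1 := key hF m
    have h2 := key hG m
    rw [ih] at h1
    exact mul_left_cancel₀ (one_sub_pow_ne hq hq1 m) (h1.trans h2.symm)

/-- coefficients of `U`. -/
noncomputable def Uc (q : ℝ) (k a : ℕ) : ℝ := pr q k a * (-q ^ k) ^ a
/-- coefficients of `V`, without the factor `q^{n b}`. -/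
noncomputable def Vc (q : ℝ) (k b : ℕ) : ℝ := pr q k b * q ^ b

noncomputable def Us (q : ℝ) (k : ℕ) : PowerSeries ℝ := mk (Uc q k)
noncomputable def Vs (q : ℝ) (k n : ℕ) : PowerSeries ℝ := mk fun b => Vc q k b * (q ^ n) ^ b

theorem Us_eq {q : ℝ} (hq : 0 < q) (hq1 : q ≠ 1) (k : ℕ) :
    (1 - X) * rescale q (Us q k) = (1 + C (q ^ k) * X) * Us q k := by
  ext m
  rw [sub_mul, add_mul, one_mul, one_mul, map_sub, map_add]
  cases m with
  | zero =>
    simp [Us, Uc, pr_zero]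
  | succ m =>
    rw [mul_comm (X : PowerSeries ℝ), coeff_succ_mul_X, mul_comm (C (q ^ k)) X, mul_assoc,
      mul_comm X, coeff_succ_mul_X, coeff_C_mul, coeff_rescale, coeff_rescale]
    unfold Us
    simp only [coeff_mk]
    unfold Uc
    rw [pr_succ]
    have h1 := one_sub_pow_ne hq hq1 m
    have h2 : q ^ k ≠ 0 := (pow_pos hq k).ne'
    have h3 : pr q k m * ((1 + q ^ m / q ^ k) / (1 - q ^ (m + 1))) * (-q ^ k) ^ (m + 1)
        * (1 - q ^ (m + 1)) = pr q k m * (-q ^ k) ^ m * -(q ^ k + q ^ m) := by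
      field_simp
      ring
    linear_combination -h3

theorem Vs_eq {q : ℝ} (hq : 0 < q) (hq1 : q ≠ 1) {k n : ℕ} (hkn : k ≤ n) :
    (1 + C (q ^ (n + 1 - k)) * X) * rescale q (Vs q k n) = (1 - C (q ^ (n + 1)) * X) * Vs q k n := by
  ext m
  rw [sub_mul, add_mul, one_mul, one_mul, map_sub, map_add]
  cases m with
  | zero =>
    simp [Vs, Vc, pr_zero]
  | succ m =>
    rw [mul_comm (C (q ^ (n + 1 - k))) X, mul_assoc, mul_comm X, coeff_succ_mul_X, coeff_C_mul,
      mul_comm (C (q ^ (n + 1))) X, mul_assoc, mul_comm X, coeff_succ_mul_X, coeff_C_mul,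
      coeff_rescale, coeff_rescale]
    unfold Vs
    simp only [coeff_mk]
    unfold Vc
    rw [pr_succ]
    have h1 := one_sub_pow_ne hq hq1 m
    have h2 : q ^ k ≠ 0 := (pow_pos hq k).ne'
    have h4 : q ^ (n + 1 - k) * q ^ k = q ^ (n + 1) := by
      rw [← pow_add]
      congr 1
      omega
    have h5 : q ^ (n + 1 - k) = q ^ (n + 1) / q ^ k := by
      rw [eq_div_iff h2, h4]
    have h3 : pr q k m * ((1 + q ^ m / q ^ k) / (1 - q ^ (m + 1))) * q ^ (m + 1)
        * (q ^ n) ^ (m + 1) * (1 - q ^ (m + 1))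
        = pr q k m * q ^ m * (q ^ n) ^ m * (q ^ (n + 1) + q ^ (n + 1) / q ^ k * q ^ m) := by
      field_simp
      ring
    rw [h5]
    linear_combination -h3

/-- `∏_{i=k}^{n-k} (1 + t q^i)`. -/
noncomputable def Ps (q : ℝ) (k n : ℕ) : PowerSeries ℝ := ∏ i ∈ Ico k (n + 1 - k), (1 + C (q ^ i) * X)
/-- `∏_{i=0}^{n} (1 - t q^i)`. -/
noncomputable def Ds (q : ℝ) (n : ℕ) : PowerSeries ℝ := ∏ i ∈ range (n + 1), (1 - C (q ^ i) * X)

theorem rescale_C'' (a r : ℝ) : rescale a (C r) = C r := by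
  ext m
  rw [coeff_rescale, coeff_C]
  split_ifs with h
  · simp [h]
  · simp

theorem Ps_eq {q : ℝ} {k n : ℕ} (hkn : 2 * k ≤ n + 1) :
    (1 + C (q ^ k) * X) * rescale q (Ps q k n) = Ps q k n * (1 + C (q ^ (n + 1 - k)) * X) := by
  have h1 : rescale q (Ps q k n) = ∏ i ∈ Ico k (n + 1 - k), (1 + C (q ^ (i + 1)) * X) := by
    unfold Ps
    rw [map_prod]
    apply Finset.prod_congr rfl
    intro i _
    rw [map_add, map_one, map_mul, rescale_X, rescale_C'', ← mul_assoc, ← map_mul, ← pow_succ]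
  rw [h1]
  have h2 : ∏ i ∈ Ico k (n + 1 - k), (1 + C (q ^ (i + 1)) * X : PowerSeries ℝ)
      = ∏ i ∈ Ico (k + 1) (n + 1 - k + 1), (1 + C (q ^ i) * X) := by
    rw [Finset.prod_Ico_add' (fun i => (1 + C (q ^ i) * X : PowerSeries ℝ)) k (n + 1 - k) 1]
  rw [h2]
  unfold Ps
  rw [← Finset.prod_Ico_succ_top (show k ≤ n + 1 - k by omega)
      (fun i => (1 + C (q ^ i) * X : PowerSeries ℝ))]
  exact (Finset.prod_eq_prod_Ico_succ_bot (show k < n + 1 - k + 1 by omega)
    (fun i => (1 + C (q ^ i) * X : PowerSeries ℝ))).symm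

theorem Ds_eq (q : ℝ) (n : ℕ) :
    (1 - X) * rescale q (Ds q n) = (1 - C (q ^ (n + 1)) * X) * Ds q n := by
  have h1 : rescale q (Ds q n) = ∏ i ∈ range (n + 1), (1 - C (q ^ (i + 1)) * X) := by
    unfold Ds
    rw [map_prod]
    apply Finset.prod_congr rfl
    intro i _
    rw [map_sub, map_one, map_mul, rescale_X, rescale_C'', ← mul_assoc, ← map_mul, ← pow_succ]
  rw [h1]
  have h2 := Finset.prod_range_succ' (fun i => (1 - C (q ^ i) * X : PowerSeries ℝ)) (n + 1)
  have h3 := Finset.prod_range_succ (fun i => (1 - C (q ^ i) * X : PowerSeries ℝ)) (n + 1)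
  unfold Ds
  rw [mul_comm (1 - C (q ^ (n + 1)) * X), ← h3, h2]
  simp [mul_comm]

/-- the product identity. -/
theorem UVP {q : ℝ} (hq : 0 < q) (hq1 : q ≠ 1) {k n : ℕ} (hkn : 2 * k ≤ n) :
    Us q k * Vs q k n * Ps q k n = Ds q n := by
  apply qdiff_unique hq hq1 (c := q ^ (n + 1))
  · have hU := Us_eq hq hq1 k
    have hV := Vs_eq hq hq1 (show k ≤ n by omega)
    have hP := Ps_eq (q := q) (show 2 * k ≤ n + 1 by omega)
    have hne : (1 + C (q ^ k) * X : PowerSeries ℝ) * (1 + C (q ^ (n + 1 - k)) * X) ≠ 0 := by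
      have h1 : ∀ a : ℝ, (1 + C a * X : PowerSeries ℝ) ≠ 0 := by
        intro a h
        have := congrArg (coeff 0) h
        simp at this
      exact mul_ne_zero (h1 _) (h1 _)
    apply mul_left_cancel₀ hne
    rw [map_mul, map_mul]
    set RU := rescale q (Us q k)
    set RV := rescale q (Vs q k n)
    set RP := rescale q (Ps q k n)
    calc (1 + C (q ^ k) * X) * (1 + C (q ^ (n + 1 - k)) * X) * ((1 - X) * (RU * RV * RP))
        = ((1 - X) * RU) * ((1 + C (q ^ (n + 1 - k)) * X) * RV) * ((1 + C (q ^ k) * X) * RP) := by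
          ring
      _ = ((1 + C (q ^ k) * X) * Us q k) * ((1 - C (q ^ (n + 1)) * X) * Vs q k n)
            * (Ps q k n * (1 + C (q ^ (n + 1 - k)) * X)) := by rw [hU, hV, hP]
      _ = _ := by ring
  · exact Ds_eq q n
  · have h1 : coeff 0 (Us q k) = 1 := by simp [Us, Uc, pr_zero]
    have h2 : coeff 0 (Vs q k n) = 1 := by simp [Vs, Vc, pr_zero]
    have h3 : coeff 0 (Ps q k n) = 1 := by
      unfold Ps
      rw [coeff_zero_eq_constantCoeff_apply, map_prod]
      apply Finset.prod_eq_one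
      intro i _
      simp
    have h4 : coeff 0 (Ds q n) = 1 := by
      unfold Ds
      rw [coeff_zero_eq_constantCoeff_apply, map_prod]
      apply Finset.prod_eq_one
      intro i _
      simp
    rw [coeff_zero_eq_constantCoeff_apply] at h1 h2 h3 h4 ⊢
    rw [coeff_zero_eq_constantCoeff_apply, map_mul, map_mul, h1, h2, h3, h4]
    norm_num

end Pool.H20.GI
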