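import Pool.Agent.H20.GI.Frame
import Pool.Agent.H99.PA.FinA
import Pool.Agent.H69.PF.PB
import Pool.Agent.H30.WF.PartC
import Pool.Agent.H51.PR.PartD

/-!
MP_1e629d_co: nonnegativity of `γ_{n,k}(q)` at every real `q ≥ 0`, all parts together.
-/

set_option autoImplicit false

namespace Pool.H20.GI

/-- `γ_{n,k}(q) ≥ 0` for every real `q ≥ 0`, every `n ≥ 1` and every `k ≤ (n-1)/2`. -/
theorem gamma_real {n k : ℕ} (hn : 1 ≤ n) (hk : k ≤ (n - 1) / 2) {γ : ℕ → Polynomial ℤ}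
    (hγ : Pool.H56.InvQ.invPoly n = Pool.H56.InvQ.expansion n γ) :
    ∀ q : ℝ, 0 ≤ q → 0 ≤ Polynomial.aeval q (γ k) :=
  frame (fun q h0 h1 n N => Pool.Agent.H99.PA.partA q h0 h1 n N)
    (fun q h0 h1 s hs => Pool.Agent.H69.PF.partB q h0 h1 s hs)
    (fun q h0 h1 m => Pool.Agent.H30.WF.partC q h0 h1 m)
    (fun K y pos hy hinj s hs g hg u v hu hv =>
      Pool.H51.PR.partD K y pos hy hinj s hs g hg u v hu hv)
    hn hk hγ

end Pool.H20.GI
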